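import Pool.Agent.W2helper9.OP.Fib

/-!
# Orbits which avoid a point modulo primes: the exceptional targets of a morphism of `ℙ^N`

Let `Φ` be any morphism of `ℙ^N` over a number field `K` and let `E` be the set of the exceptional
targets, that is, of the points `γ` of `ℙ^N(K)` such that for some point `γ₁` whose orbit does not
contain `γ` the primes modulo which the orbit of `γ₁` avoids `γ` do not have positive density. The
theorem says that `E` is very small:

* if `γ` is in `E` then every automorphism of `K̄` over `K` fixes a point of every fibre `Φ^(-n)(γ)`;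
* if `γ` is in `E` then no fibre `Φ^(-n)(γ)` with at least two points is a single orbit of the Galois
  group, i.e. irreducible over `K` (so, by Hilbert's irreducibility theorem, `E` is a thin set if
  `Φ` is of degree at least two and `N ≥ 1`; this remark is not formalised);
* the map `Φ^n` is injective on `E`, for every `n`; even: if `γ` is in `E` then no other point of
  `ℙ^N(K)` with the same image under `Φ^n` is in `E`.

The definitions are in `Pool/Agent/W2helper9/OP/Stm.lean` (and `Tuple`, `IsEnd` in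
`Pool/Agent/Helper819/DynDefs.lean`).
-/

set_option autoImplicit false

namespace Pool.Agent.Results.MP_df4dfc_nt.ExceptionalTargets

open Pool.Agent.Helper819.Dyn (Tuple IsEnd)
open Pool.Agent.W2helper9.OP IsDedekindDomain NumberField

/-- Let `Φ` be a morphism of `ℙ^N` over the number field `K`, given by forms `F` of degree `d ≥ 1`, and
let `γ` be a point such that for some `γ₁` whose orbit does not contain `γ` the set of the prime ideals
modulo which no iterate of `γ₁` is congruent to `γ` does not have positive density. Then (1) every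
automorphism of the algebraic closure fixes a point of the fibre of `Φ^n` over `γ`, for every `n`;
(2) if the fibre of `Φ^n` over `γ` has at least two points then the Galois group does not act
transitively on it; (3) if `γ' ≠ γ` is a point with `Φ^n(γ') = Φ^n(γ)` then for every `γ₁` whose orbit does
not contain `γ'` the set of the prime ideals modulo which no iterate of `γ₁` is congruent to `γ'` has
positive density. -/
theorem result (K : Type) [Field K] [NumberField K] (N d : ℕ) (hd : 1 ≤ d) (F : Tuple K N)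
    (hF : IsEnd d F) (γ : Fin (N + 1) → K) (hγ : γ ≠ 0)
    (hbad : ∃ γ₁ : Fin (N + 1) → K, γ₁ ≠ 0 ∧ (∀ m : ℕ, ¬ PEq ((mp F)^[m] γ₁) γ) ∧
      ¬ PosDensity {v : HeightOneSpectrum (𝓞 K) |
        ∀ m : ℕ, ¬ Cong (v.valuation K) ((mp F)^[m] γ₁) γ}) :
    (∀ (n : ℕ) (σ : AlgebraicClosure K ≃ₐ[K] AlgebraicClosure K),
      ∃ δ : Fin (N + 1) → AlgebraicClosure K, δ ≠ 0 ∧ PEq ((mp F)^[n] δ) (emb γ) ∧
        PEq (fun i => σ (δ i)) δ) ∧
    (∀ n : ℕ, (∃ δ δ' : Fin (N + 1) → AlgebraicClosure K, δ ≠ 0 ∧ δ' ≠ 0 ∧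
        PEq ((mp F)^[n] δ) (emb γ) ∧ PEq ((mp F)^[n] δ') (emb γ) ∧ ¬ PEq δ δ') →
      ∃ δ δ' : Fin (N + 1) → AlgebraicClosure K, δ ≠ 0 ∧ δ' ≠ 0 ∧
        PEq ((mp F)^[n] δ) (emb γ) ∧ PEq ((mp F)^[n] δ') (emb γ) ∧
        ∀ σ : AlgebraicClosure K ≃ₐ[K] AlgebraicClosure K, ¬ PEq (fun i => σ (δ i)) δ') ∧
    ∀ (n : ℕ) (γ' : Fin (N + 1) → K), γ' ≠ 0 → ¬ PEq γ γ' →
      PEq ((mp F)^[n] γ) ((mp F)^[n] γ') →
      ∀ γ₁ : Fin (N + 1) → K, γ₁ ≠ 0 → (∀ m : ℕ, ¬ PEq ((mp F)^[m] γ₁) γ') →
        PosDensity {v : HeightOneSpectrum (𝓞 K) |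
          ∀ m : ℕ, ¬ Cong (v.valuation K) ((mp F)^[m] γ₁) γ'} := by
  have hb : ¬ AllDense F γ := by
    intro h
    obtain ⟨γ₁, h₁, hav, hnd⟩ := hbad
    exact hnd (h γ₁ h₁ hav)
  refine ⟨fun n σ => ?_, fun n h2 => ?_, fun n γ' hγ' hne him => ?_⟩
  · by_contra hcon
    push Not at hcon
    exact hb (dense_of_fixfree hd hF hγ n ⟨σ, hcon⟩)
  · by_contra hcon
    push Not at hcon
    exact hb (dense_of_fixfree hd hF hγ n (fixfree_of_trans hd hF hγ n
      (fun δ δ' h0 h0' h1 h1' => hcon δ δ' h0 h0' h1 h1') h2))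
  · exact (fibre_n hd hF hγ hγ' hne n him).resolve_left hb

end Pool.Agent.Results.MP_df4dfc_nt.ExceptionalTargets
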