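import Pool.Agent.W2helper9.OP.All

/-!
# Orbits which avoid a point modulo primes: preperiodic targets and the one prime criterion

Let `Φ` be a morphism `ℙ^N → ℙ^N` over a number field `K` and `γ` a point of `ℙ^N(K)`. Then Q1 holds for
the target `γ` and all starting points if and only if Q2 does, if and only if `γ` is preperiodic or
is not periodic modulo one prime of good reduction. The definitions are in
`Pool/Agent/W2helper9/OP/Stm.lean` (and `Tuple`, `IsEnd` in `Pool/Agent/Helper819/DynDefs.lean`).

The proof: a Frobenius automorphism at the given prime has no fixed point among the points of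
`ℙ^N(K̄)` whose orbit reaches `γ` at time `n` and not before, for `n` large (pigeonhole modulo the
prime); by Chebotarev's theorem it is the Frobenius automorphism of a positive proportion of primes,
and modulo almost all of these the orbit of a rational point cannot reach `γ` for the first time
after time `n`.
-/

set_option autoImplicit false

namespace Pool.Agent.Results.MP_df4dfc_nt.OnePrimeCriterion

open Pool.Agent.Helper819.Dyn (Tuple IsEnd)
open Pool.Agent.W2helper9.OP IsDedekindDomain NumberField

/-- For a morphism `Φ` of `ℙ^N`, given by forms `F` of degree `d`, and a point `γ` over the number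
field `K` the following are equivalent: (1) for every point `γ₁` whose orbit does not contain `γ`
there are infinitely many prime ideals modulo which no iterate of `γ₁` is congruent to `γ`; (2) for
every such `γ₁` the set of these prime ideals has positive density; (3) `γ` is preperiodic, or there
is a prime ideal `v` of good reduction such that `γ` is not periodic modulo `v`. -/
theorem result (K : Type) [Field K] [NumberField K] (N d : ℕ) (hd : 1 ≤ d) (F : Tuple K N)
    (hF : IsEnd d F) (γ : Fin (N + 1) → K) (hγ : γ ≠ 0) :
    [∀ γ₁ : Fin (N + 1) → K, γ₁ ≠ 0 → Avoids F γ₁ γ → (S F γ₁ γ).Infinite,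
      ∀ γ₁ : Fin (N + 1) → K, γ₁ ≠ 0 → Avoids F γ₁ γ → PosDensity (S F γ₁ γ),
      Preper F γ ∨ ∃ v : HeightOneSpectrum (𝓞 K), GoodRed d F v ∧
        ∀ k : ℕ, 0 < k → ¬ Cong (v.valuation K) ((mp F)^[k] γ) γ].TFAE :=
  criterion' hd hF hγ

end Pool.Agent.Results.MP_df4dfc_nt.OnePrimeCriterion
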