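import Pool.Agent.W2helper9.OP.Pencil

/-!
# Orbits which avoid a point modulo primes: morphisms which preserve a pencil of hypersurfaces

Let `Φ = (F_0 : … : F_N)` be a morphism of `ℙ^N` of degree `d ≥ 2` over a number field `K` which preserves a
pencil of hypersurfaces: `A_i (F_0, …, F_N) = f_i (A_0, A_1)`, `i = 0, 1`, for two forms `A_0`, `A_1` of
the same degree and a morphism `f = (f_0 : f_1)` of `ℙ^1` of degree `d`. Then the set of primes modulo
which the orbit of `γ₁` avoids `γ₂` has positive density for all points `γ₁`, `γ₂` such that the orbit of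
`γ₁` does not contain `γ₂` and `γ₂` is not in the base locus `A_0 = A_1 = 0` and not in a finite number of
members of the pencil. For example, let `F_0`, `F_1` be forms in `x_0`, `x_1`, and the other `F_i`
arbitrary.

The definitions are in `Pool/Agent/W2helper9/OP/Stm.lean` (and `Tuple`, `IsEnd` in
`Pool/Agent/Helper819/DynDefs.lean`). The proof: if `(A_0(γ₂) : A_1(γ₂))` is not a periodic point of `f`
then by the local-global principle on `ℙ^1` (part 2 of project OP, by the unit equation) it is not
periodic modulo infinitely many primes, so `γ₂` is not periodic modulo a prime of good reduction, and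
the one prime criterion applies. By Northcott's theorem `f` has finitely many periodic points in
`ℙ^1(K)`.
-/

set_option autoImplicit false

namespace Pool.Agent.Results.MP_df4dfc_nt.PreservedPencils

open Pool.Agent.Helper819.Dyn (Tuple IsEnd)
open Pool.Agent.W2helper9.OP IsDedekindDomain NumberField MvPolynomial

/-- Let `Φ` be a morphism of `ℙ^N` over the number field `K`, given by forms `F` of degree `d ≥ 2`, and
let `A_0`, `A_1` be forms of the same degree with `A_i (F_0, …, F_N) = f_i (A_0, A_1)` for a morphism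
`f` of `ℙ^1` of degree `d`. There is a finite set `Z` of points of `ℙ^1(K)` such that for every point `γ₂`
with `(A_0(γ₂), A_1(γ₂)) ≠ (0, 0)` and `(A_0(γ₂) : A_1(γ₂)) ∉ Z`, and every point `γ₁` whose orbit does not
contain `γ₂`, the set of the prime ideals modulo which no iterate of `γ₁` is congruent to `γ₂` has
positive density. -/
theorem result (K : Type) [Field K] [NumberField K] (N d e : ℕ) (hd : 2 ≤ d) (F : Tuple K N)
    (hF : IsEnd d F) (A : Fin 2 → MvPolynomial (Fin (N + 1)) K) (hA : ∀ i, (A i).IsHomogeneous e)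
    (f : Tuple K 1) (hf : IsEnd d f) (hs : ∀ i, bind₁ F (A i) = bind₁ A (f i)) :
    ∃ Z : Set (Fin 2 → K), Z.Finite ∧ ∀ γ₂ : Fin (N + 1) → K, γ₂ ≠ 0 →
      (fun i => aeval γ₂ (A i)) ≠ (0 : Fin 2 → K) →
      (∀ z ∈ Z, ¬ PEq (N := 1) (fun i => aeval γ₂ (A i)) z) →
      ∀ γ₁ : Fin (N + 1) → K, γ₁ ≠ 0 → (∀ m : ℕ, ¬ PEq ((mp F)^[m] γ₁) γ₂) →
        PosDensity {v : HeightOneSpectrum (𝓞 K) |
          ∀ m : ℕ, ¬ Cong (v.valuation K) ((mp F)^[m] γ₁) γ₂} :=
  dense_pencil' hd hF hA hd hf hs

end Pool.Agent.Results.MP_df4dfc_nt.PreservedPencils
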