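import Pool.Agent.W2helper9.OP.Tri

/-!
# Orbits which avoid a point modulo primes: triangular morphisms

Let `Φ = (F_0 : … : F_N)` be a morphism of `ℙ^N`, `N` arbitrary, of degree `d ≥ 2` over a number field `K`
which is triangular: `F_i` involves only the variables `x_0, …, x_i` (for `i ≥ 1`; `F_0` may involve
`x_0` and `x_1`). Then the set of primes modulo which the orbit of `γ₁` avoids `γ₂` has positive density
for all points `γ₁`, `γ₂` such that the orbit of `γ₁` does not contain `γ₂`. The definitions are in
`Pool/Agent/W2helper9/OP/Stm.lean` (and `Tuple`, `IsEnd` in `Pool/Agent/Helper819/DynDefs.lean`).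

The proof: by the one prime criterion (`OnePrimeCriterion`) it is enough that a point `γ₂` which is not
periodic is not periodic modulo some prime of good reduction. This local-global principle is proved
by induction over the fibration by the projections which forget the last coordinate. For `N = 1` it
follows from Siegel's theorem for orbits (by the unit equation): the orbit of a wandering point meets
a suitable fixed point modulo infinitely many primes.
-/

set_option autoImplicit false

namespace Pool.Agent.Results.MP_df4dfc_nt.TriangularMorphisms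

open Pool.Agent.Helper819.Dyn (Tuple IsEnd)
open Pool.Agent.W2helper9.OP IsDedekindDomain NumberField

/-- Let `Φ` be a morphism of `ℙ^N` over the number field `K`, given by forms `F_i` of degree `d ≥ 2`
such that `F_i` involves only the variables `x_j` with `j ≤ max(i, 1)`. If no iterate of `γ₁` is equal to
`γ₂` then the set of the prime ideals modulo which no iterate of `γ₁` is congruent to `γ₂` has positive
density. -/
theorem result (K : Type) [Field K] [NumberField K] (N d : ℕ) (hd : 2 ≤ d) (F : Tuple K N)
    (hF : IsEnd d F) (hT : ∀ i j : Fin (N + 1), j ∈ (F i).vars → (j : ℕ) ≤ max (i : ℕ) 1)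
    (γ₁ γ₂ : Fin (N + 1) → K) (h₁ : γ₁ ≠ 0) (h₂ : γ₂ ≠ 0)
    (hav : ∀ m : ℕ, ¬ PEq ((mp F)^[m] γ₁) γ₂) :
    PosDensity {v : HeightOneSpectrum (𝓞 K) |
      ∀ m : ℕ, ¬ Cong (v.valuation K) ((mp F)^[m] γ₁) γ₂} :=
  dense_tri hd hF hT h₂ γ₁ h₁ hav

end Pool.Agent.Results.MP_df4dfc_nt.TriangularMorphisms
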